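import Pool.Agent.Lib.MP_7682a8_an.KB.Iface

/-! MP_7682a8_an, project KB, module SCH (helper5): the Schwarz lemma for the dilatation. -/

set_option autoImplicit false

open Metric Set MeasureTheory Filter
open scoped Topology

namespace Pool.Agent.Lib.MP_7682a8_an.KB.H5

open Pool.Agent.Lib.MP_7682a8_an.KB

theorem sch : SchStmt := by
  intro h g hh hg hg1 hlt z hz
  have hh' : DifferentiableOn ℂ (deriv h) (ball (0 : ℂ) 1) := hh.deriv isOpen_ball
  have hg' : DifferentiableOn ℂ (deriv g) (ball (0 : ℂ) 1) := hg.deriv isOpen_ball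
  have hne : ∀ w ∈ ball (0 : ℂ) 1, deriv h w ≠ 0 := by
    intro w hw h0
    have := hlt w hw
    rw [h0, norm_zero] at this
    exact absurd this (not_lt.2 (norm_nonneg _))
  have hd : DifferentiableOn ℂ (fun w => deriv g w / deriv h w) (ball (0 : ℂ) 1) :=
    hg'.div hh' hne
  have hm : MapsTo (fun w => deriv g w / deriv h w) (ball (0 : ℂ) 1) (ball (0 : ℂ) 1) := by
    intro w hw
    rw [mem_ball_zero_iff, norm_div]
    have h1 : 0 < ‖deriv h w‖ := norm_pos_iff.2 (hne w hw)
    rw [div_lt_one h1]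
    exact hlt w hw
  have h0 : (fun w => deriv g w / deriv h w) 0 = 0 := by simp [hg1]
  have hz' : ‖z‖ < 1 := mem_ball_zero_iff.1 hz
  have key : ‖(fun w => deriv g w / deriv h w) z‖ ≤ ‖z‖ :=
    Complex.norm_le_norm_of_mapsTo_ball hd (hm.mono_right ball_subset_closedBall) h0 hz'
  simp only [norm_div] at key
  have h1 : 0 < ‖deriv h z‖ := norm_pos_iff.2 (hne z hz)
  rwa [div_le_iff₀ h1] at key

end Pool.Agent.Lib.MP_7682a8_an.KB.H5
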